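import Mathlib
import Pool.Agent.Lib.helper32.NormalWL

set_option autoImplicit false

namespace Pool.Agent.Results.MP_0d8d6b_gt.Counter

open Filter Topology Set

def OmegaCover {X : Type} [TopologicalSpace X] (𝓤 : Set (Set X)) : Prop :=
  (∀ U ∈ 𝓤, IsOpen U) ∧ ⋃₀ 𝓤 = univ ∧ univ ∉ 𝓤 ∧ ∀ F : Set X, F.Finite → ∃ U ∈ 𝓤, F ⊆ U

def KCover {X : Type} [TopologicalSpace X] (𝓤 : Set (Set X)) : Prop :=
  (∀ U ∈ 𝓤, IsOpen U) ∧ ⋃₀ 𝓤 = univ ∧ univ ∉ 𝓤 ∧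
    ∀ K : Set X, IsCompact K → K.Nonempty → ∃ U ∈ 𝓤, K ⊆ U

def hist {α : Type} (U : ℕ → α) : ℕ → List α
  | 0 => []
  | n + 1 => U n :: hist U n

def OneWins (X : Type) [TopologicalSpace X] : Prop :=
  ∃ σ : List (Set X) → Set (Set X), (∀ l, KCover (σ l)) ∧
    ∀ U : ℕ → Set X, (∀ n, U n ∈ σ (hist U n)) → ¬ OmegaCover (range U)

def OneWinsPre (X : Type) [TopologicalSpace X] : Prop :=
  ∃ 𝓤 : ℕ → Set (Set X), (∀ n, KCover (𝓤 n)) ∧
    ∀ U : ℕ → Set X, (∀ n, U n ∈ 𝓤 n) → ¬ OmegaCover (range U)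

abbrev W : Type := {w : Set ℝ // w.Countable}

def X : Type := {p : (ℕ → ℝ) × W // ∀ i, p.1 i ∈ p.2.1}

def Cone (c : ℕ × (ℕ → ℝ)) : Set X := {x | ∀ i < c.1, x.1.1 i = c.2 i}

def Bad (F : Set (ℕ × (ℕ → ℝ))) (Q : Set W) : Set X := {x | (∃ c ∈ F, x ∈ Cone c) ∨ x.1.2 ∈ Q}

instance : TopologicalSpace X where
  IsOpen U := ∀ x ∈ U, ∃ F Q, F.Finite ∧ Q.Countable ∧ x ∉ Bad F Q ∧ (Bad F Q)ᶜ ⊆ U
  isOpen_univ := fun _ _ => ⟨∅, ∅, finite_empty, countable_empty, by simp [Bad], subset_univ _⟩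
  isOpen_inter U V h h' x hx := by
    obtain ⟨F, Q, a1, a2, a3, a4⟩ := h x hx.1
    obtain ⟨F', Q', b1, b2, b3, b4⟩ := h' x hx.2
    have : Bad (F ∪ F') (Q ∪ Q') = Bad F Q ∪ Bad F' Q' := by
      ext z
      simp only [Bad, mem_union, mem_setOf_eq, or_and_right, exists_or]
      exact or_or_or_comm
    exact ⟨F ∪ F', Q ∪ Q', a1.union b1, a2.union b2, by rw [this]; exact fun h => h.elim a3 b3,
      by rw [this, compl_union]; exact inter_subset_inter a4 b4⟩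
  isOpen_sUnion S h x := fun ⟨U, h1, h2⟩ => by
    obtain ⟨F, Q, a1, a2, a3, a4⟩ := h U h1 x h2
    exact ⟨F, Q, a1, a2, a3, a4.trans (subset_sUnion_of_mem h1)⟩

theorem bad_open {F : Set (ℕ × (ℕ → ℝ))} {Q : Set W} (h1 : F.Finite) (h2 : Q.Countable) :
    IsOpen (Bad F Q)ᶜ := fun _ hx => ⟨F, Q, h1, h2, hx, Subset.rfl⟩

theorem cone_open (c : ℕ × (ℕ → ℝ)) : IsOpen (Cone c)ᶜ := by
  convert bad_open (finite_singleton c) countable_empty using 2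
  ext x
  simp [Bad]

def pt (y : ℕ → ℝ) : X := ⟨(y, ⟨range y, countable_range y⟩), fun i => ⟨i, rfl⟩⟩

def Sl (w : W) : Set X := {x | x.1.2 = w}

theorem t1 : T1Space X := ⟨fun x => ⟨fun z hz => by
  by_cases h : z.1.2 = x.1.2
  · obtain ⟨i, hi⟩ := Function.ne_iff.1 (show z.1.1 ≠ x.1.1 from fun e =>
      hz (Subtype.ext (Prod.ext e h)))
    refine ⟨{(i + 1, x.1.1)}, ∅, finite_singleton _, countable_empty, ?_, ?_⟩
    · rintro (⟨_, rfl, h1⟩ | h1)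
      · exact hi (h1 i (Nat.lt_succ_self i))
      · exact h1
    · rintro _ h1 rfl
      exact h1 (Or.inl ⟨_, rfl, fun _ _ => rfl⟩)
  · refine ⟨∅, {x.1.2}, finite_empty, countable_singleton _, ?_, ?_⟩
    · rintro (⟨_, h1, -⟩ | h1)
      · exact h1
      · exact h h1
    · rintro _ h1 rfl
      exact h1 (Or.inr rfl)⟩⟩

theorem sl_cpt (w : W) : IsCompact (Sl w) := by
  classical
  refine isCompact_iff_ultrafilter_le_nhds'.2 fun f hf => ?_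
  obtain ⟨x0, h0⟩ := f.nonempty_of_mem hf
  have h1 : ∀ i, ∃ a ∈ w.1, ∀ b, {x : X | x.1.1 i = b} ∈ f → a = b := fun i => by
    by_cases h : ∃ a, {x : X | x.1.1 i = a} ∈ f
    · obtain ⟨a, h⟩ := h
      obtain ⟨x, h1, h2⟩ := f.nonempty_of_mem (inter_mem h hf)
      refine ⟨a, h1 ▸ h2 ▸ x.2 i, fun b hb => ?_⟩
      obtain ⟨z, h3, h4⟩ := f.nonempty_of_mem (inter_mem h hb)
      exact h3.symm.trans h4
    · exact ⟨_, h0 ▸ x0.2 0, fun b hb => absurd ⟨b, hb⟩ h⟩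
  choose y h2 h3 using h1
  refine ⟨⟨(y, w), h2⟩, rfl, le_nhds_iff.2 fun U hx hU => ?_⟩
  obtain ⟨F, Q, a1, -, a3, a4⟩ := hU _ hx
  refine mem_of_superset (Ultrafilter.compl_mem_iff_notMem.2 fun h => a3 ?_) a4
  have : Bad F Q = (⋃ c ∈ F, Cone c) ∪ {x | x.1.2 ∈ Q} := by
    ext x
    simp [Bad]
  rw [this, Ultrafilter.union_mem_iff, Ultrafilter.finite_biUnion_mem_iff a1] at h
  rcases h with ⟨c, h4, h5⟩ | h
  · exact Or.inl ⟨c, h4, fun i hi => h3 i _ (mem_of_superset h5 fun x hx => hx i hi)⟩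
  · obtain ⟨z, h4, h5⟩ := f.nonempty_of_mem (inter_mem h hf)
    exact Or.inr (show w ∈ Q from h5 ▸ h4)

theorem cpt_fin {K : Set X} (hK : IsCompact K) : ((fun x : X => x.1.2) '' K).Finite := by
  by_contra h
  have e := Set.Infinite.natEmbedding _ h
  obtain ⟨m, hm⟩ := hK.elim_directed_cover (fun m => (Bad ∅ ((fun j => (e j).1) '' Ici m))ᶜ)
    (fun m => bad_open finite_empty ((to_countable _).image _)) (fun x _ => by
      by_cases h1 : ∃ j, (e j).1 = x.1.2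
      · obtain ⟨j, h1⟩ := h1
        refine mem_iUnion.2 ⟨j + 1, ?_⟩
        rintro (⟨_, h2, -⟩ | ⟨i, h2, h3⟩)
        · exact h2
        · have := e.injective (Subtype.ext (h1.trans h3.symm))
          exact absurd (show j + 1 ≤ i from h2) (by omega)
      · refine mem_iUnion.2 ⟨0, ?_⟩
        rintro (⟨_, h2, -⟩ | ⟨i, -, h3⟩)
        · exact h2
        · exact h1 ⟨i, h3⟩)
    (Monotone.directed_le fun a b hab => compl_subset_compl.2 fun x hx =>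
      hx.imp id fun ⟨i, h1, h2⟩ => ⟨i, hab.trans h1, h2⟩)
  obtain ⟨x, h1, h2⟩ := (e m).2
  exact hm h1 (Or.inr ⟨m, le_refl m, h2.symm⟩)

theorem kc (n : ℕ) (y : ℕ → ℝ) :
    KCover {U : Set X | ∃ z : ℕ → ℝ, (∀ i < n, z i = y i) ∧ U = (Cone (n + 1, z))ᶜ} := by
  have h : ∀ K : Set X, IsCompact K →
      ∃ U ∈ {U : Set X | ∃ z : ℕ → ℝ, (∀ i < n, z i = y i) ∧ U = (Cone (n + 1, z))ᶜ}, K ⊆ U := by
    intro K hK
    obtain ⟨a, ha⟩ := (ne_univ_iff_exists_notMem _).1 fun e => not_countable_univ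
      (e ▸ (cpt_fin hK).countable.biUnion fun w _ => w.2 : (univ : Set ℝ).Countable)
    refine ⟨_, ⟨Function.update y n a, fun i hi => Function.update_of_ne hi.ne _ _, rfl⟩,
      fun x hx h => ha (mem_biUnion ⟨x, hx, rfl⟩ ?_)⟩
    have h1 : x.1.1 n = a := (h n (Nat.lt_succ_self n)).trans (Function.update_self _ _ _)
    exact h1 ▸ x.2 n
  refine ⟨by rintro _ ⟨z, -, rfl⟩; exact cone_open _, eq_univ_of_forall fun x => ?_,
    fun ⟨z, _, e⟩ => (e ▸ mem_univ (pt z) : pt z ∈ (Cone (n + 1, z))ᶜ) fun _ _ => rfl,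
    fun K hK _ => h K hK⟩
  obtain ⟨U, h1, h2⟩ := h {x} isCompact_singleton
  exact ⟨U, h1, h2 rfl⟩

theorem len {α : Type} (U : ℕ → α) : ∀ n, (hist U n).length = n
  | 0 => rfl
  | n + 1 => congrArg (· + 1) (len U n)

theorem wins : OneWins X := by
  let ch : ℕ → Set X → ℕ → ℝ := fun n U => Classical.epsilon fun z => U = (Cone (n, z))ᶜ
  refine ⟨fun l => {U | ∃ z : ℕ → ℝ, (∀ i < l.length, z i = ch l.length (l.headD ∅) i) ∧
    U = (Cone (l.length + 1, z))ᶜ}, fun l => kc _ _, fun U hU h => ?_⟩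
  simp only [len, mem_setOf_eq] at hU
  choose z h1 h2 using hU
  have h3 : ∀ n, ∀ i < n + 1, z (n + 1) i = z n i := fun n i hi => by
    have h4 : U n = (Cone (n + 1, ch (n + 1) (U n)))ᶜ :=
      Classical.epsilon_spec (p := fun z => U n = (Cone (n + 1, z))ᶜ) ⟨z n, h2 n⟩
    have h5 : pt (z n) ∈ Cone (n + 1, ch (n + 1) (U n)) := by
      rw [← compl_inj_iff.1 ((h2 n).symm.trans h4)]
      exact fun _ _ => rfl
    exact (h1 (n + 1) i hi).trans (h5 i hi).symm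
  have h4 : ∀ i n, i ≤ n → z i i = z n i := fun i n hn => by
    induction n, hn using Nat.le_induction with
    | base => rfl
    | succ n hn ih => exact ih.trans (h3 n i (Nat.lt_succ_of_le hn)).symm
  obtain ⟨_, ⟨n, rfl⟩, h5⟩ := h.2.2.2 {pt fun i => z i i} (finite_singleton _)
  exact (h2 n ▸ h5 rfl : pt (fun i => z i i) ∈ (Cone (n + 1, z n))ᶜ)
    fun i hi => h4 i n (Nat.le_of_lt_succ hi)

theorem exit {U : Set X} (hU : IsOpen U) (M : W) (h0 : (0 : ℝ) ∈ M.1) (h : Sl M ⊆ U) :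
    ∃ (Z : Set ℝ) (Q : Set W), Z.Finite ∧ Q.Countable ∧ ∀ x ∉ U, x.1.2 ∈ Q ∨
      ∃ p, (∀ q < p, x.1.1 q ∈ Z ∩ M.1) ∧ x.1.1 p ∈ Z \ M.1 := by
  classical
  choose F Q a1 a2 a3 a4 using fun z : Sl M => hU z.1 (h z.2)
  obtain ⟨t, ht⟩ := (sl_cpt M).elim_finite_subcover (fun z => (Bad (F z) (Q z))ᶜ)
    (fun z => bad_open (a1 z) (a2 z)) fun z hz => mem_iUnion.2 ⟨⟨z, hz⟩, a3 _⟩
  refine ⟨⋃ z ∈ t, ⋃ c ∈ F z, c.2 '' Iio c.1, ⋃ z ∈ t, Q z,
    t.finite_toSet.biUnion fun z _ => (a1 z).biUnion fun c _ => (finite_Iio _).image _,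
    t.countable_toSet.biUnion fun z _ => a2 z, fun x hx => or_iff_not_imp_left.2 fun hq => ?_⟩
  have h1 : ∀ y : ℕ → ℝ, (∀ i, y i ∈ M.1) →
      ∃ z ∈ t, ∃ c ∈ F z, x ∈ Cone c ∧ ∃ q < c.1, y q ≠ x.1.1 q := fun y hy => by
    obtain ⟨z, h1, h2⟩ := mem_iUnion₂.1 (ht (show (⟨(y, M), hy⟩ : X) ∈ Sl M from rfl))
    obtain ⟨c, h3, h4⟩ := (not_not.1 fun h3 => hx (a4 z h3) : x ∈ Bad (F z) (Q z)).resolve_right
      fun h3 => hq (mem_biUnion h1 h3)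
    refine ⟨z, h1, c, h3, h4, ?_⟩
    by_contra h5
    push Not at h5
    exact h2 (Or.inl ⟨c, h3, fun i hi => (h5 i hi).trans (h4 i hi)⟩)
  have h2 : ∃ p, x.1.1 p ∉ M.1 := by
    by_contra h2
    push Not at h2
    obtain ⟨_, -, _, -, -, _, -, h3⟩ := h1 _ h2
    exact h3 rfl
  have h3 : ∀ q < Nat.find h2, x.1.1 q ∈ M.1 := fun q hq => not_not.1 (Nat.find_min h2 hq)
  obtain ⟨z, b1, c, b2, b3, q, b4, b5⟩ := h1 (fun q => if q < Nat.find h2 then x.1.1 q else 0)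
    fun i => by
      split_ifs with hi
      exacts [h3 i hi, h0]
  have h4 : Nat.find h2 < c.1 := lt_of_le_of_lt (not_lt.1 fun h4 => b5 (if_pos h4)) b4
  have h5 : ∀ i < c.1, x.1.1 i ∈ ⋃ z ∈ t, ⋃ c ∈ F z, c.2 '' Iio c.1 := fun i hi =>
    mem_biUnion b1 (mem_biUnion b2 ⟨i, hi, (b3 i hi).symm⟩)
  exact ⟨_, fun i hi => ⟨h5 i (hi.trans h4), h3 i hi⟩, h5 _ h4, Nat.find_spec h2⟩

def R (𝓥 : Set (Set X)) (H : Set W) (E D : Set ℝ) : Prop :=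
  ∃ (V : Set X) (A : Set ℝ) (Q : Set W), V ∈ 𝓥 ∧ A.Finite ∧ Q.Countable ∧ Disjoint A D ∧
    (∀ w ∈ H, Sl w ⊆ V) ∧ ∀ x ∉ V, x.1.2 ∈ Q ∨ ∃ p, (∀ q < p, x.1.1 q ∈ E) ∧ x.1.1 p ∈ A

theorem press {𝓥 : Set (Set X)} (h : KCover 𝓥) {H : Set W} (hH : H.Finite) :
    ∃ E : Set ℝ, E.Finite ∧ ∀ D : W, R 𝓥 H E D.1 := by
  by_contra hc
  have h1 : ∀ E : Set ℝ, ∃ D : W, E.Finite → ¬ R 𝓥 H E D.1 := fun E => by
    by_contra h1
    push Not at h1
    exact hc ⟨E, (h1 ⟨∅, countable_empty⟩).1, fun D => (h1 D).2⟩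
  choose D hD using h1
  obtain ⟨s, h1, h2⟩ := Pool.Agent.Lib.helper32.NormalWL.close (fun a _ => insert (0 : ℝ) (D a).1)
    fun a _ => (D a).2.insert 0
  let M : W := ⟨{r | ∀ᶠ n in atTop, r ∈ s n}, (countable_iUnion fun n => (h1 n).countable).mono
    fun r hr => mem_iUnion.2 (Eventually.exists hr)⟩
  have h0 : (0 : ℝ) ∈ M.1 := h2 0 0 0 (mem_insert _ _)
  obtain ⟨V, a1, a2⟩ := h.2.2.2 (⋃ w ∈ insert M H, Sl w)
    ((hH.insert M).isCompact_biUnion fun w _ => sl_cpt w)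
    ⟨⟨(fun _ => 0, M), fun _ => h0⟩, mem_biUnion (mem_insert _ _) rfl⟩
  obtain ⟨Z, Q, b1, b2, b3⟩ := exit (h.1 V a1) M h0
    ((subset_biUnion_of_mem (mem_insert _ _)).trans a2)
  obtain ⟨n, hn⟩ := ((eventually_all_finite (b1.inter_of_left M.1)).2 fun r hr => hr.2).exists
  exact hD _ (h1 n) ⟨V, Z \ M.1, Q, a1, b1.sdiff, b2,
    disjoint_left.2 fun r h3 h4 => h3.2 (h2 n n r (mem_insert_of_mem _ h4)),
    fun w hw => (subset_biUnion_of_mem (mem_insert_of_mem _ hw)).trans a2,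
    fun x hx => (b3 x hx).imp id fun ⟨p, h3, h4⟩ => ⟨p, fun q hq => hn _ (h3 q hq), h4⟩⟩

theorem stage {𝓥 : ℕ → Set (Set X)} (h : ∀ j, KCover (𝓥 j)) (H : Set W) :
    ∃ (V : ℕ → Set X) (Q : Set W), Q.Countable ∧ (H.Finite →
      (∀ j, V j ∈ 𝓥 j ∧ ∀ w ∈ H, Sl w ⊆ V j) ∧ ∀ x : X, x.1.2 ∉ Q → {j | x ∉ V j}.Subsingleton) := by
  by_cases hH : H.Finite
  swap
  · exact ⟨fun _ => ∅, ∅, countable_empty, fun h => absurd h hH⟩
  choose E h1 h2 using fun j => press (h j) hH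
  choose V A Q a1 a2 a3 a4 a5 a6 using h2
  let D : ℕ → W := fun n => Nat.rec ⟨⋃ j, E j, countable_iUnion fun j => (h1 j).countable⟩
    (fun j D => ⟨D.1 ∪ A j D, D.2.union (a2 j D).countable⟩) n
  have hm : Monotone fun n => (D n).1 := monotone_nat_of_le_succ fun n => subset_union_left
  have h3 : ∀ i j, E i ⊆ (D j).1 := fun i j => (subset_iUnion E i).trans (hm (Nat.zero_le j))
  refine ⟨fun j => V j (D j), ⋃ j, Q j (D j), countable_iUnion fun j => a3 j _, fun _ =>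
    ⟨fun j => ⟨a1 j _, a5 j _⟩, fun x hx => ?_⟩⟩
  have key : ∀ i j, i < j → x ∉ V i (D i) → x ∉ V j (D j) → False := fun i j hij hi hj => by
    obtain ⟨p, b1, b2⟩ := (a6 i _ x hi).resolve_left fun h => hx (mem_iUnion.2 ⟨i, h⟩)
    obtain ⟨q, b3, b4⟩ := (a6 j _ x hj).resolve_left fun h => hx (mem_iUnion.2 ⟨j, h⟩)
    rcases lt_trichotomy p q with h4 | rfl | h4
    · exact disjoint_left.1 (a4 i _) b2 (h3 j i (b3 p h4))
    · exact disjoint_left.1 (a4 j _) b4 (hm (show i + 1 ≤ j from hij) (Or.inr b2))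
    · exact disjoint_left.1 (a4 j _) b4 (h3 i j (b1 q h4))
  intro i hi j hj
  rcases lt_trichotomy i j with h4 | h4 | h4
  exacts [(key i j h4 hi hj).elim, h4, (key j i h4 hj hi).elim]

theorem notPre : ¬ OneWinsPre X := by
  rintro ⟨𝓤, h1, h2⟩
  choose V Q a1 a2 using fun k H => stage (fun j => h1 (Nat.pair k j)) H
  haveI : Nonempty W := ⟨⟨∅, countable_empty⟩⟩
  obtain ⟨s, h3, h4⟩ := Pool.Agent.Lib.helper32.NormalWL.close (fun a _ => ⋃ k, Q k a)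
    fun a _ => countable_iUnion fun k => a1 k a
  have h5 : ∀ n, V n.unpair.1 (s n.unpair.1) n.unpair.2 ∈ 𝓤 n := fun n => by
    simpa using ((a2 n.unpair.1 _ (h3 n.unpair.1)).1 n.unpair.2).1
  have h6 : ∀ G : Set X, G.Finite →
      ∃ U ∈ range fun n : ℕ => V n.unpair.1 (s n.unpair.1) n.unpair.2, G ⊆ U := fun G hG => by
    obtain ⟨k, hk⟩ := ((eventually_all_finite hG).2 fun x _ =>
      (show ∀ᶠ k in atTop, x.1.2 ∈ s k ∨ x.1.2 ∉ Q k (s k) from by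
        by_cases h : ∃ k, x.1.2 ∈ Q k (s k)
        · obtain ⟨k, h⟩ := h
          exact (h4 k k _ (mem_iUnion.2 ⟨k, h⟩)).mono fun _ => Or.inl
        · exact Eventually.of_forall fun k => Or.inr fun h' => h ⟨k, h'⟩)).exists
    obtain ⟨j, hj⟩ := (hG.biUnion fun x hx => show {j | x ∉ V k (s k) j}.Finite from by
      rcases hk x hx with h | h
      · exact finite_empty.subset fun j hj => hj (((a2 k _ (h3 k)).1 j).2 _ h rfl)
      · exact ((a2 k _ (h3 k)).2 x h).finite).exists_notMem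
    refine ⟨_, ⟨Nat.pair k j, rfl⟩, fun x hx => ?_⟩
    simp only [Nat.unpair_pair]
    exact not_not.1 fun h => hj (mem_biUnion hx h)
  refine h2 _ h5 ⟨by rintro _ ⟨n, rfl⟩; exact (h1 n).1 _ (h5 n), eq_univ_of_forall fun x => ?_,
    fun ⟨n, e⟩ => (h1 n).2.2.1 (e ▸ h5 n), h6⟩
  obtain ⟨U, h7, h8⟩ := h6 {x} (finite_singleton x)
  exact ⟨U, h7, h8 rfl⟩

theorem result : ∃ (Z : Type) (_ : TopologicalSpace Z), T1Space Z ∧ OneWins Z ∧ ¬ OneWinsPre Z :=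
  ⟨X, inferInstance, t1, wins, notPre⟩

end Pool.Agent.Results.MP_0d8d6b_gt.Counter
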